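import Mathlib

set_option autoImplicit false

namespace Pool.Agent.D850

open Set Topology Cardinal

theorem clo_iff {Y : Type} [TopologicalSpace Y] (S : Set Y) (y : Y) :
    closure S = closure ({y} : Set Y) ↔ ∀ U : Set Y, IsOpen U → ((∃ s ∈ S, s ∈ U) ↔ y ∈ U) := by
  constructor
  · intro h U hU
    constructor
    · rintro ⟨s, hs, hsU⟩
      have h1 : s ∈ closure ({y} : Set Y) := h ▸ subset_closure hs
      obtain ⟨z, hz, hz2⟩ := mem_closure_iff.1 h1 U hU hsU
      rwa [mem_singleton_iff.1 hz2] at hz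
    · intro hy
      have h1 : y ∈ closure S := h ▸ subset_closure (mem_singleton y)
      obtain ⟨z, hz, hz2⟩ := mem_closure_iff.1 h1 U hU hy
      exact ⟨z, hz2, hz⟩
  · intro h
    apply Subset.antisymm
    · apply closure_minimal _ isClosed_closure
      intro s hs
      rw [mem_closure_iff]
      intro U hU hsU
      exact ⟨y, (h U hU).1 ⟨s, hs, hsU⟩, rfl⟩
    · apply closure_minimal _ isClosed_closure
      rintro _ rfl
      rw [mem_closure_iff]
      intro U hU hyU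
      obtain ⟨s, hs, hsU⟩ := (h U hU).2 hyU
      exact ⟨s, hsU, hs⟩

/-- the regular cardinals used -/
noncomputable def cc (n : ℕ) : Cardinal.{0} := ℵ_ (n + 1 : ℕ)

theorem cc_reg (n : ℕ) : (cc n).IsRegular := by
  unfold cc
  push_cast
  exact isRegular_aleph_add_one _

theorem cc_lt {m n : ℕ} (h : m < n) : cc m < cc n := by
  unfold cc
  apply aleph_lt_aleph.2
  exact_mod_cast Nat.succ_lt_succ h

theorem aleph0_lt_cc (n : ℕ) : ℵ₀ < cc n := by
  unfold cc
  rw [← aleph_zero]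
  apply aleph_lt_aleph.2
  exact_mod_cast Nat.succ_pos n

/-- the chains -/
def X (n : ℕ) : Type := (cc n).ord.ToType

noncomputable instance (n : ℕ) : LinearOrder (X n) := inferInstanceAs (LinearOrder (cc n).ord.ToType)
instance (n : ℕ) : WellFoundedLT (X n) := inferInstanceAs (WellFoundedLT (cc n).ord.ToType)
instance (n : ℕ) : NoMaxOrder (X n) := Cardinal.noMaxOrder (aleph0_lt_cc n).le

theorem mk_X (n : ℕ) : #(X n) = cc n := by
  show #((cc n).ord.ToType) = cc n
  simp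

instance (n : ℕ) : Nonempty (X n) := by
  rw [← mk_ne_zero_iff, mk_X]
  exact (aleph0_pos.trans (aleph0_lt_cc n)).ne'

theorem bdd (n : ℕ) {ι : Type} (f : ι → X n) (hι : #ι < cc n) : ∃ b, ∀ i, f i ≤ b := by
  let f' : ι → (cc n).ord.ToType := f
  let g : ι → Ordinal.{0} := fun i => (Ordinal.ToType.mk.symm (f' i)).1
  have hg : ∀ i, g i < (cc n).ord := fun i => (Ordinal.ToType.mk.symm (f' i)).2
  have hsup : iSup g < (cc n).ord := Ordinal.iSup_lt_of_lt_cof (by rwa [(cc_reg n).cof_ord]) hg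
  refine ⟨(Ordinal.ToType.mk ⟨iSup g, hsup⟩ : (cc n).ord.ToType), fun i => ?_⟩
  show f' i ≤ Ordinal.ToType.mk ⟨iSup g, hsup⟩
  rw [← OrderIso.symm_apply_le]
  show g i ≤ iSup g
  exact Ordinal.le_iSup g i

instance (n : ℕ) : TopologicalSpace (X n) where
  IsOpen U := IsUpperSet U
  isOpen_univ := isUpperSet_univ
  isOpen_inter _ _ h1 h2 := h1.inter h2
  isOpen_sUnion _ h := isUpperSet_sUnion h

theorem isOpen_X (n : ℕ) (U : Set (X n)) : IsOpen U ↔ IsUpperSet U := Iff.rfl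

instance (n : ℕ) : T0Space (X n) := by
  rw [t0Space_iff_inseparable]
  intro x y h
  rw [inseparable_iff_forall_isOpen] at h
  have h1 := (h (Ici x) (isUpperSet_Ici x)).1 (self_mem_Ici)
  have h2 := (h (Ici y) (isUpperSet_Ici y)).2 (self_mem_Ici)
  exact le_antisymm h1 h2

/-- the bad space -/
def Y0 : Type := {y : ∀ j, WithTop (X j) // {j | y j = ⊤}.Finite}

def V (j : ℕ) (a : X j) : Set Y0 := {y | (a : WithTop (X j)) < y.1 j}

instance : TopologicalSpace Y0 := TopologicalSpace.generateFrom {W | ∃ j a, W = V j a}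

theorem V_open (j : ℕ) (a : X j) : IsOpen (V j a) :=
  TopologicalSpace.isOpen_generateFrom_of_mem ⟨j, a, rfl⟩

theorem le_of_V {y z : Y0} (h : ∀ j a, y ∈ V j a → z ∈ V j a) (j : ℕ) : y.1 j ≤ z.1 j := by
  by_contra hcon
  push Not at hcon
  obtain ⟨a, ha⟩ := WithTop.ne_top_iff_exists.1 (ne_top_of_lt hcon)
  have h1 : y ∈ V j a := by
    show (a : WithTop (X j)) < y.1 j
    rw [ha]; exact hcon
  have h2 : (a : WithTop (X j)) < z.1 j := h j a h1
  rw [ha] at h2
  exact lt_irrefl _ h2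

instance : T0Space Y0 := by
  rw [t0Space_iff_inseparable]
  intro x y h
  rw [inseparable_iff_forall_isOpen] at h
  apply Subtype.ext
  funext j
  exact le_antisymm (le_of_V (fun j a => (h _ (V_open j a)).1) j)
    (le_of_V (fun j a => (h _ (V_open j a)).2) j)

theorem closure_eq (S : Set Y0) (hne : S.Nonempty)
    (hdir : ∀ s ∈ S, ∀ s' ∈ S, ∃ s'' ∈ S, (∀ j, s.1 j ≤ s''.1 j) ∧ (∀ j, s'.1 j ≤ s''.1 j))
    (y : Y0) (h : ∀ j a, (∃ s ∈ S, s ∈ V j a) ↔ y ∈ V j a) :
    closure S = closure ({y} : Set Y0) := by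
  rw [clo_iff]
  intro U hU
  have key : (∀ s s' : Y0, (∀ j, s.1 j ≤ s'.1 j) → s ∈ U → s' ∈ U) ∧
      ((∃ s ∈ S, s ∈ U) ↔ y ∈ U) := by
    induction hU with
    | basic W hW =>
      obtain ⟨j, a, rfl⟩ := hW
      exact ⟨fun s s' hs hsW => lt_of_lt_of_le (show (a : WithTop (X j)) < s.1 j from hsW) (hs j),
        h j a⟩
    | univ => exact ⟨fun _ _ _ _ => trivial, fun _ => trivial, fun _ =>
        ⟨_, hne.some_mem, trivial⟩⟩
    | inter U1 U2 _ _ ih1 ih2 =>
      refine ⟨fun s s' hs hsU => ⟨ih1.1 s s' hs hsU.1, ih2.1 s s' hs hsU.2⟩, ?_, ?_⟩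
      · rintro ⟨s, hs, h1, h2⟩
        exact ⟨ih1.2.1 ⟨s, hs, h1⟩, ih2.2.1 ⟨s, hs, h2⟩⟩
      · rintro ⟨h1, h2⟩
        obtain ⟨s, hs, hs1⟩ := ih1.2.2 h1
        obtain ⟨s', hs', hs1'⟩ := ih2.2.2 h2
        obtain ⟨s'', hs'', h3, h4⟩ := hdir s hs s' hs'
        exact ⟨s'', hs'', ih1.1 _ _ h3 hs1, ih2.1 _ _ h4 hs1'⟩
    | sUnion 𝒲 _ ih =>
      refine ⟨?_, ?_, ?_⟩
      · rintro s s' hs ⟨W, hW, hsW⟩
        exact ⟨W, hW, (ih W hW).1 s s' hs hsW⟩
      · rintro ⟨s, hs, W, hW, hsW⟩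
        exact ⟨W, hW, (ih W hW).2.1 ⟨s, hs, hsW⟩⟩
      · rintro ⟨W, hW, hyW⟩
        obtain ⟨s, hs, hsW⟩ := (ih W hW).2.2 hyW
        exact ⟨s, hs, W, hW, hsW⟩
  exact key.2

/-- sups of monotone families -/
theorem exists_sup {L : Type} [LinearOrder L] [WellFoundedLT L] {T : Type} (φ : T → WithTop L) :
    ∃ z : WithTop L, (∀ t, φ t ≤ z) ∧ ∀ a, a < z → ∃ t, a < φ t := by
  obtain ⟨z, hz, hmin⟩ := WellFounded.has_min (wellFounded_lt (α := WithTop L))
    {z | ∀ t, φ t ≤ z} ⟨⊤, fun t => le_top⟩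
  refine ⟨z, hz, fun a ha => ?_⟩
  by_contra hcon
  push Not at hcon
  exact hmin a hcon ha

theorem det (n : ℕ) (g : X n → Y0) (hg : Continuous g) :
    ∃ y : Y0, closure (g '' univ) = closure ({y} : Set Y0) := by
  have hmono : ∀ t t' : X n, t ≤ t' → ∀ j, (g t).1 j ≤ (g t').1 j := by
    intro t t' htt
    apply le_of_V
    intro j a h
    have := (V_open j a).preimage hg
    exact this htt h
  choose y hy1 hy2 using fun j => exists_sup (fun t : X n => (g t).1 j)
  have hfin : {j | y j = ⊤}.Finite := by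
    have hE : {j | ∃ t, (g t).1 j = ⊤}.Finite := by
      have : ∀ j : {j | ∃ t, (g t).1 j = ⊤}, ∃ t, (g t).1 j.1 = ⊤ := fun j => j.2
      choose t ht using this
      obtain ⟨b, hb⟩ := bdd n t (lt_of_le_of_lt (mk_le_aleph0) (aleph0_lt_cc n))
      refine (g b).2.subset ?_
      intro j hj
      have h1 := hmono _ _ (hb ⟨j, hj⟩) j
      rw [ht ⟨j, hj⟩] at h1
      exact top_le_iff.1 h1
    refine (hE.union (finite_singleton n)).subset ?_
    intro j hj
    have hj' : y j = ⊤ := hj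
    by_contra hcon
    rw [mem_union, not_or] at hcon
    obtain ⟨hc1, hc2⟩ := hcon
    have hjn : j ≠ n := hc2
    have hnt : ∀ t, (g t).1 j ≠ ⊤ := fun t ht => hc1 ⟨t, ht⟩
    have hex : ∀ t, ∃ b : X j, (b : WithTop (X j)) = (g t).1 j := fun t =>
      WithTop.ne_top_iff_exists.1 (hnt t)
    choose φ hφ using hex
    have hunb : ∀ b : X j, ∃ t, b < φ t := by
      intro b
      obtain ⟨t, ht⟩ := hy2 j (b : WithTop (X j)) (by rw [hj']; exact WithTop.coe_lt_top b)
      refine ⟨t, ?_⟩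
      rw [← hφ t] at ht
      exact WithTop.coe_lt_coe.1 ht
    have hφm : ∀ t t', t ≤ t' → φ t ≤ φ t' := by
      intro t t' htt
      have := hmono t t' htt j
      rw [← hφ t, ← hφ t'] at this
      exact WithTop.coe_le_coe.1 this
    rcases lt_or_gt_of_ne hjn with hlt | hgt
    · choose t ht using hunb
      obtain ⟨b, hb⟩ := bdd n t (by rw [mk_X]; exact cc_lt hlt)
      have h1 := ht (φ b)
      have h2 := hφm _ _ (hb (φ b))
      exact absurd (lt_of_lt_of_le h1 h2) (lt_irrefl _)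
    · obtain ⟨b, hb⟩ := bdd j φ (by rw [mk_X]; exact cc_lt hgt)
      obtain ⟨t, ht⟩ := hunb b
      exact absurd (lt_of_lt_of_le ht (hb t)) (lt_irrefl _)
  refine ⟨⟨y, hfin⟩, ?_⟩
  apply closure_eq
  · exact ⟨_, ⟨Classical.arbitrary (X n), trivial, rfl⟩⟩
  · rintro _ ⟨t, _, rfl⟩ _ ⟨t', _, rfl⟩
    exact ⟨_, ⟨max t t', trivial, rfl⟩, hmono _ _ (le_max_left _ _), hmono _ _ (le_max_right _ _)⟩
  · intro j a
    constructor
    · rintro ⟨_, ⟨t, _, rfl⟩, ht⟩
      exact lt_of_lt_of_le ht (hy1 j t)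
    · intro h
      obtain ⟨t, ht⟩ := hy2 j _ h
      exact ⟨_, ⟨t, trivial, rfl⟩, ht⟩

/-- the class of spaces -/
def K (Z : Type) [TopologicalSpace Z] : Prop :=
  T0Space Z ∧ ∀ n, ∀ g : X n → Z, Continuous g → ∃ y : Z, closure (g '' univ) = closure ({y} : Set Z)

theorem irr_univ (n : ℕ) : IsIrreducible (univ : Set (X n)) := by
  refine ⟨univ_nonempty, ?_⟩
  rintro U W hU hW ⟨a, _, ha⟩ ⟨b, _, hb⟩
  exact ⟨max a b, trivial, hU (le_max_left _ _) ha, hW (le_max_right _ _) hb⟩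

theorem main :
    ¬ (∀ (K : ∀ (Y : Type) [TopologicalSpace Y], Prop),
    (∀ (Y : Type) [TopologicalSpace Y], K Y → T0Space Y) →
    (∀ (Y : Type) [TopologicalSpace Y], T0Space Y → QuasiSober Y → K Y) →
    ∀ (I : Type) (X : I → Type) [∀ i, TopologicalSpace (X i)] [∀ i, T0Space (X i)]
      (A : ∀ i, Set (X i)),
      (∀ i, ∀ (Y : Type) [TopologicalSpace Y], K Y →
        ∀ f : X i → Y, Continuous f →
          ∃! y : Y, closure (f '' A i) = closure ({y} : Set Y)) →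
      ∀ (Y : Type) [TopologicalSpace Y], K Y →
        ∀ f : (∀ i, X i) → Y, Continuous f →
          ∃! y : Y, closure (f '' Set.pi Set.univ A) = closure ({y} : Set Y)) := by
  intro H
  let f : (∀ i, X i) → Y0 := fun x => ⟨fun j => (x j : WithTop (X j)), by
    simp⟩
  have hf : Continuous f := by
    apply continuous_generateFrom_iff.2
    rintro _ ⟨j, a, rfl⟩
    have : f ⁻¹' V j a = (fun x : (∀ i, X i) => x j) ⁻¹' (Ioi a) := by
      ext x
      show ((a : WithTop (X j)) < (x j : WithTop (X j))) ↔ a < x j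
      exact WithTop.coe_lt_coe
    rw [this]
    exact IsOpen.preimage (continuous_apply j) (isUpperSet_Ioi a)
  obtain ⟨y, hy, _⟩ := H @K (fun Y _ h => h.1) (by
      intro Z _ h0 hs
      refine ⟨h0, ?_⟩
      intro n g hg
      obtain ⟨z, hz⟩ := hs.sober ((irr_univ n).image g hg.continuousOn).closure isClosed_closure
      exact ⟨z, hz.symm⟩) ℕ X (fun _ => univ) (by
      intro n Z _ hZ g hg
      obtain ⟨z, hz⟩ := hZ.2 n g hg
      refine ⟨z, hz, ?_⟩
      intro z' hz'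
      have := hZ.1
      have h3 : closure ({z'} : Set Z) = closure {z} := by rw [← hz, hz']
      exact (inseparable_iff_closure_eq.2 h3).eq) Y0 ⟨inferInstance, det⟩ f hf
  obtain ⟨j, hj⟩ : ∃ j, y.1 j ≠ ⊤ := by
    by_contra hcon
    push Not at hcon
    have := y.2
    rw [show {j | y.1 j = ⊤} = Set.univ from eq_univ_of_forall hcon] at this
    exact infinite_univ this
  obtain ⟨a, ha⟩ := WithTop.ne_top_iff_exists.1 hj
  obtain ⟨b, hb⟩ := exists_gt a
  have h1 := ((clo_iff _ _).1 hy (V j a) (V_open j a)).1 ⟨f (Function.update (fun i =>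
    Classical.arbitrary (X i)) j b), ⟨_, fun i _ => trivial, rfl⟩, by
      show (a : WithTop (X j)) < _
      simp only [f, Function.update_self]
      exact WithTop.coe_lt_coe.2 hb⟩
  have h2 : (a : WithTop (X j)) < y.1 j := h1
  rw [ha] at h2
  exact lt_irrefl _ h2

end Pool.Agent.D850
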